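import Mathlib
import Pool.Agent.H.MP_16c542_al.A

namespace Pool.Agent.Results.MP_16c542_al.Counter
open Pool.Agent.H.MP_16c542_al TensorProduct

/-- A symmetric relation all of whose polar sets are linear subspaces. -/
def IsLocality {K E : Type} [Field K] [AddCommGroup E] [Module K E] (T : E → E → Prop) : Prop :=
  (∀ x y, T x y → T y x) ∧ ∀ S : Set E, ∃ P : Submodule K E, ∀ x, x ∈ P ↔ ∀ y ∈ S, T x y

/-- The locality tensor product, as a subspace of `V ⊗ W`. -/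
def LocTensor {K E : Type} [Field K] [AddCommGroup E] [Module K E] (T : E → E → Prop)
    (V W : Submodule K E) : Submodule K (V ⊗[K] W) :=
  Submodule.span K {z | ∃ (v : V) (w : W), T v w ∧ z = v ⊗ₜ[K] w}

/-- The quotient locality relation. -/
def QuotRel {K E : Type} [Field K] [AddCommGroup E] [Module K E] (T : E → E → Prop)
    (V W : Submodule K E) (X Y : V ⊗[K] W) : Prop :=
  ∃ (m n : ℕ) (v : Fin m → V) (w : Fin m → W) (v' : Fin n → V) (w' : Fin n → W),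
    X = ∑ i, v i ⊗ₜ[K] w i ∧ Y = ∑ j, v' j ⊗ₜ[K] w' j ∧
    (∀ i, T (v i) (w i)) ∧ (∀ j, T (v' j) (w' j)) ∧
    ∀ i j, T (v i) (v' j) ∧ T (v i) (w' j) ∧ T (w i) (v' j) ∧ T (w i) (w' j)

/-- In the locality tensor product every polar set for the quotient relation is a subspace. -/
def TensorIsLocality {K E : Type} [Field K] [AddCommGroup E] [Module K E] (T : E → E → Prop)
    (V W : Submodule K E) : Prop :=
  ∀ S : Set (LocTensor T V W), ∃ P : Submodule K (LocTensor T V W),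
    ∀ X, X ∈ P ↔ ∀ Y ∈ S, QuotRel T V W X.1 Y.1

abbrev Tp : Submodule ℚ E := ⊤
def b (i : Fin 8) : Tp := ⟨Pi.single i 1, trivial⟩
def co (i : Fin 8) : Tp →ₗ[ℚ] ℚ := (LinearMap.proj i).comp Tp.subtype
theorem co_apply (i : Fin 8) (v : Tp) : co i v = v.1 i := rfl

theorem dec (c d : Tp) : b 0 ⊗ₜ[ℚ] b 1 = ∑ j : Fin 4,
    (![(2 / 5 : ℚ) • (b 0 + c), (2 / 5 : ℚ) • (b 0 - c), (1 / 10 : ℚ) • (b 0 + (2 : ℚ) • c),
      (1 / 10 : ℚ) • (b 0 - (2 : ℚ) • c)] j) ⊗ₜ[ℚ]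
    (![b 1 + d, b 1 - d, b 1 - (2 : ℚ) • d, b 1 + (2 : ℚ) • d] j) := by
  simp only [Fin.sum_univ_four, Matrix.cons_val, add_tmul, sub_tmul, tmul_add, tmul_sub,
    ← smul_tmul', tmul_smul]
  module

theorem aux : ∃ T : (Fin 8 → ℚ) → (Fin 8 → ℚ) → Prop, IsLocality (K := ℚ) T ∧
    ∃ (V W : Submodule ℚ (Fin 8 → ℚ)) (X₁ X₂ Y : V ⊗[ℚ] W),
      X₁ ∈ LocTensor T V W ∧ X₂ ∈ LocTensor T V W ∧ Y ∈ LocTensor T V W ∧
      QuotRel T V W X₁ Y ∧ QuotRel T V W X₂ Y ∧ ¬ QuotRel T V W (X₁ + X₂) Y := by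
  have q1 : QuotRel R Tp Tp (b 4 ⊗ₜ[ℚ] b 4) (b 0 ⊗ₜ[ℚ] b 1) := by
    have hx : ∀ v : E, U1 v → R (b 4).1 v :=
      fun v h => Or.inl (Or.inr (Or.inl ⟨by simp [X1, U1, b], h⟩))
    refine ⟨1, 4, fun _ => b 4, fun _ => b 4, _, _, by simp, dec (b 2) (b 3),
      fun _ => hx _ (by simp [U1, b]), fun j => ?_, fun _ j => ⟨hx _ ?_, hx _ ?_, hx _ ?_, hx _ ?_⟩⟩
    · refine Or.inl (Or.inr (Or.inr (Or.inr (Or.inr (Or.inl
        ⟨![1, -1, 2, -2] j, ![1, -1, -2, 2] j, ?_⟩)))))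
      fin_cases j <;> simp [Pr, L1, M1, U1, b] <;> norm_num
    all_goals fin_cases j <;> simp [U1, b]
  have q2 : QuotRel R Tp Tp (b 7 ⊗ₜ[ℚ] b 7) (b 0 ⊗ₜ[ℚ] b 1) := by
    have hx : ∀ v : E, U2 v → R (b 7).1 v :=
      fun v h => Or.inl (Or.inr (Or.inr (Or.inl ⟨by simp [X2, U2, b], h⟩)))
    refine ⟨1, 4, fun _ => b 7, fun _ => b 7, _, _, by simp, dec (b 5) (b 6),
      fun _ => hx _ (by simp [U2, b]), fun j => ?_, fun _ j => ⟨hx _ ?_, hx _ ?_, hx _ ?_, hx _ ?_⟩⟩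
    · refine Or.inl (Or.inr (Or.inr (Or.inr (Or.inr (Or.inr
        ⟨![1, -1, 2, -2] j, ![1, -1, -2, 2] j, ?_⟩)))))
      fin_cases j <;> simp [Pr, L2, M2, U2, b] <;> norm_num
    all_goals fin_cases j <;> simp [U2, b]
  have hm : ∀ X Y, QuotRel R Tp Tp X Y → X ∈ LocTensor R Tp Tp ∧ Y ∈ LocTensor R Tp Tp := by
    rintro X Y ⟨m, n, v, w, v', w', rfl, rfl, h1, h2, -⟩
    exact ⟨Submodule.sum_mem _ (fun i _ => Submodule.subset_span ⟨_, _, h1 i, rfl⟩),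
      Submodule.sum_mem _ (fun i _ => Submodule.subset_span ⟨_, _, h2 i, rfl⟩)⟩
  refine ⟨R, ⟨fun _ _ => R_symm, fun S => ⟨⨅ y ∈ S, pol y, fun x => ?_⟩⟩, Tp, Tp, _, _, _,
    (hm _ _ q1).1, (hm _ _ q2).1, (hm _ _ q1).2, q1, q2, ?_⟩
  · simp only [Submodule.mem_iInf]
    exact ⟨fun h y hy => R_symm (h y hy), fun h y hy => R_symm (h y hy)⟩
  rintro ⟨m, n, v, w, v', w', h1, h2, -, h3, h4⟩
  have key : ∀ u : E, (∀ i, R (v i) u) → U1 u ∧ U2 u := by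
    intro u hu
    have hk : ∀ k, (TensorProduct.lift ((LinearMap.lsmul ℚ E).flip.compl₁₂ Tp.subtype (co k)))
        (b 4 ⊗ₜ[ℚ] b 4 + b 7 ⊗ₜ[ℚ] b 7) ∈ pol u := by
      intro k
      rw [h1, map_sum]
      exact Submodule.sum_mem _ (fun i _ => (pol u).smul_mem _ (R_symm (hu i)))
    exact ⟨R_x1 (show Pi.single 4 1 ∈ pol u by simpa [co_apply, b] using hk 4),
      R_x2 (show Pi.single 7 1 ∈ pol u by simpa [co_apply, b] using hk 7)⟩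
  have h5 := congrArg (TensorProduct.lift ((LinearMap.mul ℚ ℚ).compl₁₂ (co 0) (co 1))) h2
  rw [map_sum, Finset.sum_eq_zero] at h5
  · simp [co_apply, b] at h5
  · intro j _
    have a1 := key _ (fun i => (h4 i j).1)
    have a2 := key _ (fun i => (h4 i j).2.1)
    exact R_ab (h3 j) a1.1 a1.2 a2.1 a2.2

theorem result : ∃ (E : Type) (_ : AddCommGroup E) (_ : Module ℚ E) (T : E → E → Prop),
    Module.Finite ℚ E ∧ IsLocality (K := ℚ) T ∧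
      ∃ V W : Submodule ℚ E, ¬ TensorIsLocality T V W := by
  obtain ⟨T, h, V, W, X₁, X₂, Y, h1, h2, h3, h4, h5, h6⟩ := aux
  refine ⟨_, _, _, T, inferInstance, h, V, W, fun H => h6 ?_⟩
  obtain ⟨P, hP⟩ := H {⟨Y, h3⟩}
  simp only [Set.mem_singleton_iff, forall_eq] at hP
  exact (hP (⟨X₁, h1⟩ + ⟨X₂, h2⟩)).mp (P.add_mem ((hP ⟨X₁, h1⟩).mpr h4) ((hP ⟨X₂, h2⟩).mpr h5))

end Pool.Agent.Results.MP_16c542_al.Counter
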